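import Mathlib
import Pool.Agent.Helper105_All.CoreG

set_option autoImplicit false

namespace Pool.Agent.Results.MP_25f38e_lc.MeasurableSLLL

open MeasureTheory Pool.Agent.Helper105

/-- Question Q1 has a positive answer: if a Borel `k`-instance `𝓑` over a standard Borel space is
correct for the symmetric Local Lemma, `e * p * (d + 1) < 1`, then for every Borel probability
measure `μ` there is a Borel map whose defect is `μ`-null. -/
theorem result {X : Type*} [MeasurableSpace X] [StandardBorelSpace X] (μ : Measure X)
    [IsProbabilityMeasure μ] {k : ℕ} (hk : 0 < k) (𝓑 : Set (Finset (Finset (X × Fin k))))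
    (hBorel : IsBorelInstance 𝓑) (hcorrect : CorrectSLLL 𝓑) :
    ∃ f : X → Fin k, Measurable f ∧ μ (defect f 𝓑) = 0 :=
  main_all hk hBorel.2 hBorel.1 hcorrect μ

end Pool.Agent.Results.MP_25f38e_lc.MeasurableSLLL
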