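import Mathlib
import Pool.Agent.Helper105_Tree.Main

set_option autoImplicit false

namespace Pool.Agent.Results.MP_25f38e_lc.TreeHyperfinite

open MeasureTheory Pool.Agent.Helper105

/-- Question Q1 has a positive answer, at the tight criterion of the symmetric Local Lemma and also
under the general Local Lemma with Borel weights and finite neighbourhoods, for every Borel
`k`-instance `𝓑` whose incidence graph (points lying in the same domains being identified) is a
forest and whose connectedness relation is `μ`-hyperfinite: there is a Borel map whose defect is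
`μ`-null. -/
theorem result {X : Type*} [MeasurableSpace X] [StandardBorelSpace X] (μ : Measure X)
    [IsProbabilityMeasure μ] {k : ℕ} (hk : 0 < k) (𝓑 : Set (Finset (Finset (X × Fin k))))
    (hBorel : IsBorelInstance 𝓑)
    (hcorrect : CorrectSLLL 𝓑 ∨ ∃ ω, BorelWeight ω ∧ CorrectLLL 𝓑 ω)
    (htree : (incidence 𝓑).IsAcyclic) (hhyp : MuHyperfinite μ (Joined 𝓑)) :
    ∃ f : X → Fin k, Measurable f ∧ μ (defect f 𝓑) = 0 := by
  obtain ⟨hbad, hB⟩ := hBorel
  rcases hcorrect with h | ⟨ω, hω, hL⟩
  · obtain ⟨c, hc⟩ := slll_lll hk hbad h
    exact main_lll hk hB hbad (ω := fun _ => c) (@measurable_const _ _ _ (_) c) hc htree μ hhyp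
  · exact main_lll hk hB hbad hω hL htree μ hhyp

end Pool.Agent.Results.MP_25f38e_lc.TreeHyperfinite
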